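import Pool.Agent.Helper34.FB.Goals

/-!
# Packet FB-BUILD1 (MP_05c055_al): the linear algebra of a minimal complex with a homotopy action
-/

set_option autoImplicit false

namespace Pool.Agent.Helper33.FB

open IsLocalRing Pool.Agent.Helper26.DA Pool.Agent.Helper34.FB

universe u v w x y

section mingen

variable {A : Type u} [CommRing A] [IsLocalRing A] {M : Type w} [AddCommGroup M] [Module A M]

/-- `m M` -/
abbrev mM (A : Type u) [CommRing A] [IsLocalRing A] (M : Type w) [AddCommGroup M] [Module A M] :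
    Submodule A M := maximalIdeal A • (⊤ : Submodule A M)

theorem map_mM {N : Type w} [AddCommGroup N] [Module A N] (f : M →ₗ[A] N) {z : M}
    (hz : z ∈ mM A M) : f z ∈ mM A N := by
  have h1 : Submodule.map f (mM A M) ≤ mM A N := by
    rw [mM, Submodule.map_smul'']
    exact Submodule.smul_mono le_rfl le_top
  exact h1 (Submodule.mem_map_of_mem hz)

theorem smul_mem_mM {a : A} (ha : a ∈ maximalIdeal A) (z : M) : a • z ∈ mM A M :=
  Submodule.smul_mem_smul ha trivial

theorem ex_coeff {e0 : ℕ} {a : Fin e0 → A} (ha : Ideal.span (Set.range a) = maximalIdeal A) {z : M}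
    (hz : z ∈ mM A M) : ∃ y : Fin e0 → M, z = ∑ l, a l • y l := by
  rw [mM, ← ha] at hz
  refine Submodule.smul_induction_on hz ?_ ?_
  · intro r hr n _
    obtain ⟨c, hc⟩ := (Ideal.mem_span_range_iff_exists_fun).mp hr
    refine ⟨fun l => c l • n, ?_⟩
    rw [← hc, Finset.sum_smul]
    refine Finset.sum_congr rfl fun l _ => ?_
    rw [mul_comm, mul_smul]
  · rintro x x' ⟨y, rfl⟩ ⟨y', rfl⟩
    refine ⟨fun l => y l + y' l, ?_⟩
    rw [← Finset.sum_add_distrib]
    exact Finset.sum_congr rfl fun l _ => (smul_add _ _ _).symm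

theorem uniq_coeff [Module.Free A M] {e0 : ℕ} {a : Fin e0 → A} (ha : MinGen a) {y : Fin e0 → M}
    (hy : ∑ l, a l • y l = 0) (l : Fin e0) : y l ∈ mM A M := by
  classical
  let bs := Module.Free.chooseBasis A M
  have h1 : ∀ i, bs.repr (y l) i ∈ maximalIdeal A := by
    intro i
    have h2 : ∑ l, a l * bs.repr (y l) i = 0 := by
      have h3 := congrArg (fun z => bs.repr z i) hy
      simpa [map_sum, Finsupp.finsetSum_apply] using h3
    exact ha.2 _ h2 l
  rw [← bs.linearCombination_repr (y l), Finsupp.linearCombination_apply, Finsupp.sum]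
  exact Submodule.sum_mem _ fun i _ => smul_mem_mM (h1 i) _

end mingen

section quot

variable {A : Type u} [CommRing A] [IsLocalRing A] {M : Type w} [AddCommGroup M] [Module A M]

/-- `M / m M` -/
abbrev Wq (A : Type u) [CommRing A] [IsLocalRing A] (M : Type w) [AddCommGroup M] [Module A M] :
    Type w := M ⧸ mM A M

/-- the class -/
abbrev cl (A : Type u) [CommRing A] [IsLocalRing A] {M : Type w} [AddCommGroup M] [Module A M] :
    M →ₗ[A] Wq A M := (mM A M).mkQ

theorem cl_eq_zero {z : M} : cl A z = 0 ↔ z ∈ mM A M := by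
  rw [← LinearMap.mem_ker, Submodule.ker_mkQ]

theorem cl_surj (w : Wq A M) : ∃ z, cl A z = w := (mM A M).mkQ_surjective w

/-- the induced map -/
def ind (f : M →ₗ[A] M) : Wq A M →ₗ[A] Wq A M :=
  (mM A M).mapQ (mM A M) f fun _ hz => map_mM f hz

@[simp]
theorem ind_cl (f : M →ₗ[A] M) (z : M) : ind f (cl A z) = cl A (f z) := rfl

variable [Module.Free A M]

/-- the operators `D` -/
theorem exists_D {e0 : ℕ} {a : Fin e0 → A} (ha : MinGen a) (d : M →ₗ[A] M)
    (hd : ∀ z, d z ∈ mM A M) : ∃ D : Fin e0 → (Wq A M →ₗ[A] Wq A M),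
      ∀ (z : M) (y : Fin e0 → M), d z = ∑ l, a l • y l → ∀ l, D l (cl A z) = cl A (y l) := by
  classical
  have hex : ∀ z, ∃ y : Fin e0 → M, d z = ∑ l, a l • y l := fun z => ex_coeff ha.1 (hd z)
  choose Y hY using hex
  have huniq : ∀ (z : M) (y : Fin e0 → M), d z = ∑ l, a l • y l → ∀ l, cl A (Y z l) = cl A (y l) := by
    intro z y hy l
    rw [← sub_eq_zero, ← map_sub, cl_eq_zero]
    refine uniq_coeff ha (y := fun l => Y z l - y l) ?_ l
    simp only [smul_sub, Finset.sum_sub_distrib]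
    rw [← hY z, ← hy, sub_self]
  let D0 : Fin e0 → (M →ₗ[A] Wq A M) := fun l =>
    { toFun := fun z => cl A (Y z l)
      map_add' := by
        intro z z'
        rw [← map_add]
        refine huniq (z + z') (fun l => Y z l + Y z' l) ?_ l
        simp only [smul_add, Finset.sum_add_distrib]
        rw [map_add, ← hY z, ← hY z']
      map_smul' := by
        intro c z
        rw [RingHom.id_apply, ← map_smul]
        refine huniq (c • z) (fun l => c • Y z l) ?_ l
        rw [map_smul, hY z, Finset.smul_sum]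
        exact Finset.sum_congr rfl fun l _ => smul_comm _ _ _ }
  have hker : ∀ l, mM A M ≤ LinearMap.ker (D0 l) := by
    intro l z hz
    rw [LinearMap.mem_ker]
    change cl A (Y z l) = 0
    obtain ⟨x, hx⟩ := ex_coeff ha.1 hz
    rw [huniq z (fun l => d (x l)) (by rw [hx, map_sum]; simp only [map_smul]) l, cl_eq_zero]
    exact hd _
  refine ⟨fun l => (mM A M).liftQ (D0 l) (hker l), ?_⟩
  intro z y hy l
  exact huniq z y hy l

end quot

section action

variable {A : Type u} {B : Type v} [CommRing A] [IsLocalRing A] [CommRing B] [Algebra A B] {p : ℕ}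
  (H : HA.{u, v, w} A B p)

/-- degree one -/
def Deg1 (η : H.M →ₗ[A] H.M) : Prop := ∀ i z, η (H.pr i z) = H.pr (i + 1) (η z)

variable {H}

theorem Deg1.pr0 {η : H.M →ₗ[A] H.M} (h : Deg1 H η) (z : H.M) : H.pr 0 (η z) = 0 := by
  conv_lhs => rw [H.pr_sum z, map_sum, map_sum]
  refine Finset.sum_eq_zero fun i _ => ?_
  rw [h i z, H.pr_ne 0 (i + 1) (by omega)]

theorem homot_mem (hmin : H.Min) (η : H.M →ₗ[A] H.M) (z : H.M) :
    H.d (η z) + η (H.d z) ∈ mM A H.M :=
  Submodule.add_mem _ (hmin _) (map_mM η (hmin z))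

/-- the action of `B` on `M / m M` -/
noncomputable def actB (hmin : H.Min) : B →+* AddMonoid.End (Wq A H.M) where
  toFun b := (ind (H.ρ b)).toAddMonoidHom
  map_one' := by
    ext w
    obtain ⟨z, rfl⟩ := cl_surj w
    obtain ⟨η, -, hη⟩ := H.one
    change cl A (H.ρ 1 z) = cl A z
    rw [← sub_eq_zero, ← map_sub, hη, cl_eq_zero]
    exact homot_mem hmin η z
  map_mul' b c := by
    ext w
    obtain ⟨z, rfl⟩ := cl_surj w
    obtain ⟨η, -, hη⟩ := H.mul b c
    change cl A (H.ρ (b * c) z) = cl A (H.ρ b (H.ρ c z))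
    rw [← sub_eq_zero, ← map_sub, hη, cl_eq_zero]
    exact homot_mem hmin η z
  map_add' b c := by
    ext w
    obtain ⟨z, rfl⟩ := cl_surj w
    obtain ⟨η, -, hη⟩ := H.add b c
    change cl A (H.ρ (b + c) z) = cl A (H.ρ b z) + cl A (H.ρ c z)
    rw [← map_add, ← sub_eq_zero, ← map_sub, hη, cl_eq_zero]
    exact homot_mem hmin η z
  map_zero' := by
    ext w
    obtain ⟨z, rfl⟩ := cl_surj w
    obtain ⟨η, -, hη⟩ := H.add 0 0
    change cl A (H.ρ 0 z) = 0
    have h1 := hη z
    rw [add_zero] at h1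
    have h2 : H.ρ 0 z = -(H.d (η z) + η (H.d z)) := by
      rw [← h1]
      abel
    rw [h2, cl_eq_zero]
    exact Submodule.neg_mem _ (homot_mem hmin η z)

theorem actB_cl (hmin : H.Min) (b : B) (z : H.M) : actB hmin b (cl A z) = cl A (H.ρ b z) := rfl

theorem actB_alg (hmin : H.Min) {a : A} (ha : a ∈ maximalIdeal A) :
    actB hmin (algebraMap A B a) = 0 := by
  ext w
  obtain ⟨z, rfl⟩ := cl_surj w
  obtain ⟨η, -, hη⟩ := H.alg a
  rw [actB_cl]
  change cl A (H.ρ (algebraMap A B a) z) = 0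
  have h1 := hη z
  have h2 : H.ρ (algebraMap A B a) z = (H.d (η z) + η (H.d z)) + a • z := by
    rw [← h1]
    abel
  rw [h2, cl_eq_zero]
  exact Submodule.add_mem _ (homot_mem hmin η z) (smul_mem_mM ha z)

theorem actB_blk (hmin : H.Min) {s0 : ℕ} (b : Fin s0 → A) (hb : ∀ i, b i ∈ maximalIdeal A) :
    ∀ c ∈ blk B b, actB hmin c = 0 := by
  intro c hc
  have h1 : blk B b ≤ RingHom.ker (actB hmin) := by
    rw [blk, Ideal.span_le]
    rintro _ ⟨i, rfl⟩
    exact actB_alg hmin (hb i)
  exact h1 hc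

/-- the action of `R` on `M / m M` -/
noncomputable def actR (hmin : H.Min) {s0 : ℕ} (b : Fin s0 → A) (hb : ∀ i, b i ∈ maximalIdeal A)
    {R : Type x} [CommRing R] (q : R →+* B ⧸ blk B b) : R →+* AddMonoid.End (Wq A H.M) :=
  (Ideal.Quotient.lift (blk B b) (actB hmin) (actB_blk hmin b hb)).comp q

theorem actR_cl (hmin : H.Min) {s0 : ℕ} (b : Fin s0 → A) (hb : ∀ i, b i ∈ maximalIdeal A)
    {R : Type x} [CommRing R] (q : R →+* B ⧸ blk B b) (g : R) (c : B)
    (hg : q g = Ideal.Quotient.mk _ c) (z : H.M) :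
    actR hmin b hb q g (cl A z) = cl A (H.ρ c z) := by
  rw [actR, RingHom.comp_apply, hg, Ideal.Quotient.lift_mk, actB_cl]

end action

section htp

variable {A : Type u} {B : Type v} [CommRing A] [IsLocalRing A] [CommRing B] [Algebra A B] {p : ℕ}
  (H : HA.{u, v, w} A B p) {N : Type y} [AddCommGroup N] [Module A N] [Module B N]
  [IsScalarTower A B N] (π : H.M →ₗ[A] N)

/-- the values of `η` are in the group `T` -/
def TP (η : H.M →ₗ[A] H.M) : Prop := ∀ z, H.pr 0 (η z) = 0 ∧ π (H.d (H.pr 1 (η z))) = 0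

variable {H π}

theorem gen_htp (hH : G_HTP.{u, v, w}) (hπ : ∀ b z, π (H.ρ b (H.pr 0 z)) = b • π (H.pr 0 z))
    {κ lam : Type} [Fintype κ] [Fintype lam] (a : κ → A) (c1 c2 : κ → B) (b : lam → A)
    (c : lam → B) (a0 : A)
    (hrel : ∑ k, algebraMap A B (a k) * (c1 k * c2 k) + ∑ l, algebraMap A B (b l) * c l +
      algebraMap A B a0 = 0) :
    ∃ η : H.M →ₗ[A] H.M, Deg1 H η ∧ (∀ z, (∑ k, a k • H.ρ (c1 k) (H.ρ (c2 k) z) +
      ∑ l, b l • H.ρ (c l) z + a0 • z) = H.d (η z) + η (H.d z)) ∧ TP H π η := by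
  obtain ⟨η, h1, h2⟩ := hH A B p H κ lam a c1 c2 b c a0 hrel
  have h3 : ∀ z, (∑ k, a k • H.ρ (c1 k) (H.ρ (c2 k) z) +
      ∑ l, b l • H.ρ (c l) z + a0 • z) = H.d (η z) + η (H.d z) := by
    intro z
    rw [← h2 z]
    simp [LinearMap.sum_apply]
  refine ⟨η, h1, h3, fun z => ⟨Deg1.pr0 h1 z, ?_⟩⟩
  have h4 : H.pr 1 (η z) = η (H.pr 0 z) := (h1 0 z).symm
  have h5 := h3 (H.pr 0 z)
  rw [H.d_zero, map_zero, add_zero] at h5
  rw [h4, ← h5]
  simp only [map_add, map_sum, map_smul]
  have h6 : ∀ k, π (H.ρ (c1 k) (H.ρ (c2 k) (H.pr 0 z))) = (c1 k * c2 k) • π (H.pr 0 z) := by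
    intro k
    rw [H.ρ_pr (c2 k), hπ, ← H.ρ_pr (c2 k), hπ, mul_smul]
  simp only [h6, hπ]
  have h7 : ∀ (r : A) (n : N), r • n = algebraMap A B r • n := fun r n =>
    (algebraMap_smul B r n).symm
  simp only [h7, ← mul_smul]
  rw [← Finset.sum_smul, ← Finset.sum_smul, ← add_smul, ← add_smul, hrel, zero_smul]

theorem s_htp (hH : G_HTP.{u, v, w}) (hπ : ∀ b z, π (H.ρ b (H.pr 0 z)) = b • π (H.pr 0 z))
    (x1 x2 : B) : ∃ η : H.M →ₗ[A] H.M, Deg1 H η ∧
      (∀ z, H.ρ x1 (H.ρ x2 z) - H.ρ x2 (H.ρ x1 z) = H.d (η z) + η (H.d z)) ∧ TP H π η := by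
  obtain ⟨η, h1, h2, h3⟩ := gen_htp hH hπ (κ := Fin 2) (lam := Fin 0) ![1, -1] ![x1, x2] ![x2, x1]
    (fun i => i.elim0) (fun i => i.elim0) 0 (by simp [Fin.sum_univ_two]; ring)
  refine ⟨η, h1, fun z => ?_, h3⟩
  rw [← h2 z]
  simp [Fin.sum_univ_two, sub_eq_add_neg]

theorem h_htp (hH : G_HTP.{u, v, w}) (hπ : ∀ b z, π (H.ρ b (H.pr 0 z)) = b • π (H.pr 0 z))
    (x1 y1 x2 y2 : B) (a0 : A) {s0 : ℕ} (b : Fin s0 → A) (r : Fin s0 → B)
    (hrel : algebraMap A B a0 = x1 * y1 + x2 * y2 + ∑ i, r i * algebraMap A B (b i)) :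
    ∃ η : H.M →ₗ[A] H.M, Deg1 H η ∧
      (∀ z, a0 • z - H.ρ x1 (H.ρ y1 z) - H.ρ x2 (H.ρ y2 z) - ∑ i, b i • H.ρ (r i) z =
        H.d (η z) + η (H.d z)) ∧ TP H π η := by
  obtain ⟨η, h1, h2, h3⟩ := gen_htp hH hπ (κ := Fin 2) (lam := Fin s0) ![-1, -1] ![x1, x2] ![y1, y2]
    (fun i => -b i) r a0 (by
      rw [hrel]
      simp only [Fin.sum_univ_two, Matrix.cons_val_zero, Matrix.cons_val_one, map_neg, map_one,
        neg_mul, one_mul, Finset.sum_neg_distrib]
      have : ∑ i, algebraMap A B (b i) * r i = ∑ i, r i * algebraMap A B (b i) :=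
        Finset.sum_congr rfl fun i _ => mul_comm _ _
      rw [this]
      ring)
  refine ⟨η, h1, fun z => ?_, h3⟩
  rw [← h2 z]
  simp only [Fin.sum_univ_two, Matrix.cons_val_zero, Matrix.cons_val_one, neg_smul, one_smul,
    Finset.sum_neg_distrib]
  abel

theorem k_htp (hH : G_HTP.{u, v, w}) (hπ : ∀ b z, π (H.ρ b (H.pr 0 z)) = b • π (H.pr 0 z))
    {J : Type} [Fintype J] (α : J → A) (c : J → B) {s0 : ℕ} (b : Fin s0 → A) (r : Fin s0 → B)
    (hrel : ∑ l, c l * algebraMap A B (α l) = ∑ i, r i * algebraMap A B (b i)) :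
    ∃ η : H.M →ₗ[A] H.M, Deg1 H η ∧
      (∀ z, ∑ l, α l • H.ρ (c l) z - ∑ i, b i • H.ρ (r i) z =
        H.d (η z) + η (H.d z)) ∧ TP H π η := by
  obtain ⟨η, h1, h2, h3⟩ := gen_htp hH hπ (κ := Fin 0) (lam := J ⊕ Fin s0) (fun i => i.elim0)
    (fun i => i.elim0) (fun i => i.elim0) (Sum.elim α fun i => -b i) (Sum.elim c r) 0 (by
      simp only [Finset.univ_eq_empty, Finset.sum_empty, zero_add, Fintype.sum_sum_type,
        Sum.elim_inl, Sum.elim_inr, map_neg, neg_mul, Finset.sum_neg_distrib, map_zero, add_zero]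
      have e1 : ∑ i, algebraMap A B (b i) * r i = ∑ i, r i * algebraMap A B (b i) :=
        Finset.sum_congr rfl fun i _ => mul_comm _ _
      have e2 : ∑ l, algebraMap A B (α l) * c l = ∑ l, c l * algebraMap A B (α l) :=
        Finset.sum_congr rfl fun i _ => mul_comm _ _
      rw [e1, e2, hrel]
      ring)
  refine ⟨η, h1, fun z => ?_, h3⟩
  rw [← h2 z]
  simp only [Finset.univ_eq_empty, Finset.sum_empty, zero_add, Fintype.sum_sum_type,
        Sum.elim_inl, Sum.elim_inr, neg_smul, Finset.sum_neg_distrib, zero_smul, add_zero]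
  abel

end htp

section coeff

variable {A : Type u} [CommRing A] [IsLocalRing A] {M : Type w} [AddCommGroup M] [Module A M]

/-- the coefficient at `emb j` of a combination with coefficients in the maximal ideal at `emb j` -/
theorem sum_fiber {e0 : ℕ} (a : Fin e0 → A) {J : Type} [Fintype J] [DecidableEq (Fin e0)]
    (emb : J → Fin e0) (x : J → M) :
    ∑ l, a (emb l) • x l = ∑ k, a k • ∑ l with emb l = k, x l := by
  classical
  simp only [Finset.smul_sum]
  rw [← Finset.sum_fiberwise Finset.univ emb fun l => a (emb l) • x l]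
  refine Finset.sum_congr rfl fun k _ => Finset.sum_congr rfl fun l hl => ?_
  rw [(Finset.mem_filter.mp hl).2]

theorem fiber_emb {e0 : ℕ} {J : Type} [Fintype J] [DecidableEq (Fin e0)] {emb : J → Fin e0}
    (hemb : Function.Injective emb) (x : J → M) (j : J) : ∑ l with emb l = emb j, x l = x j := by
  classical
  have : (Finset.univ.filter fun l => emb l = emb j) = {j} := by
    ext l
    simp only [Finset.mem_filter, Finset.mem_univ, true_and, Finset.mem_singleton]
    exact ⟨fun h => hemb h, fun h => by rw [h]⟩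
  rw [this, Finset.sum_singleton]

/-- rewriting of `∑ b i • x i` -/
theorem b_coeff {e0 s0 : ℕ} (a : Fin e0 → A) (b : Fin s0 → A) (C : Fin s0 → Fin e0 → A)
    (hC : ∀ i, b i = ∑ l, C i l * a l) (x : Fin s0 → M) :
    ∑ i, b i • x i = ∑ k, a k • ∑ i, C i k • x i := by
  simp only [Finset.smul_sum]
  rw [Finset.sum_comm]
  refine Finset.sum_congr rfl fun i _ => ?_
  rw [hC i, Finset.sum_smul]
  refine Finset.sum_congr rfl fun l _ => ?_
  rw [mul_comm, mul_smul]

theorem b_coeff_mem {e0 s0 : ℕ} (C : Fin s0 → Fin e0 → A) {k : Fin e0}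
    (hC : ∀ i, C i k ∈ maximalIdeal A) (x : Fin s0 → M) : cl A (∑ i, C i k • x i) = 0 := by
  rw [cl_eq_zero]
  exact Submodule.sum_mem _ fun i _ => smul_mem_mM (hC i) _

end coeff

/-- **FB-BUILD1** -/
theorem gBUILD1 : G_BUILD1.{u, v, w, x, y} := by
  intro hH A _ _ B _ _ p H hmin e0 a ha s0 b hb J _ emb hemb hbc R _ q t1 t2 f1 f2 hf N _ _ _ _ π hπ
  classical
  choose C hC1 hC2 using hbc
  have hL0 : ∀ g : R, ∃ c : B, q g = Ideal.Quotient.mk (blk B b) c := fun g => by
    obtain ⟨c, hc⟩ := Ideal.Quotient.mk_surjective (q g)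
    exact ⟨c, hc.symm⟩
  choose L hL using hL0
  obtain ⟨D, hD⟩ := exists_D ha H.d hmin
  have hY0 : ∀ z, ∃ y : Fin e0 → H.M, H.d z = ∑ l, a l • y l := fun z => ex_coeff ha.1 (hmin z)
  choose Y hY using hY0
  have hDY : ∀ l z, D l (cl A z) = cl A (Y z l) := fun l z => hD z (Y z) (hY z) l
  let modR : Module R (Wq A H.M) := Module.compHom (Wq A H.M) (actR hmin b hb q)
  have hsm : ∀ (g : R) (c : B) (z : H.M), q g = Ideal.Quotient.mk _ c →
      g • cl A z = cl A (H.ρ c z) := fun g c z hg => actR_cl hmin b hb q g c hg z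
  have hsmL : ∀ (g : R) (z : H.M), g • cl A z = cl A (H.ρ (L g) z) := fun g z => hsm g _ z (hL g)
  obtain ⟨s, s1, s2, s3⟩ := s_htp hH hπ (L t1) (L t2)
  have hr0 : ∀ j, ∃ r : Fin s0 → B, algebraMap A B (a (emb j)) =
      L t1 * L (f1 j) + L t2 * L (f2 j) + ∑ i, r i * algebraMap A B (b i) := by
    intro j
    have e1 := hf j
    rw [map_add, map_mul, map_mul, hL, hL, hL, hL, ← map_mul, ← map_mul, ← map_add] at e1
    have e2 : algebraMap A B (a (emb j)) - (L t1 * L (f1 j) + L t2 * L (f2 j)) ∈ blk B b := by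
      rw [← Ideal.Quotient.eq_zero_iff_mem, map_sub, e1, sub_self]
    obtain ⟨r, hr⟩ := (Ideal.mem_span_range_iff_exists_fun).mp e2
    exact ⟨r, by rw [hr]; ring⟩
  choose r hr using hr0
  have hh0 := fun j => h_htp hH hπ (L t1) (L (f1 j)) (L t2) (L (f2 j)) (a (emb j)) b (r j) (hr j)
  choose h h1 h2 h3 using hh0
  -- the operators `D` are linear over `R`
  have hDR : ∀ l (g : R) w, D l (g • w) = g • D l w := by
    intro l g w
    obtain ⟨z, rfl⟩ := cl_surj w
    rw [hsmL, hDY l z, hsmL]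
    refine hD _ (fun l => H.ρ (L g) (Y z l)) ?_ l
    rw [H.ρ_d, hY z, map_sum]
    simp only [map_smul]
  -- `T`
  let T0 : AddSubgroup H.M :=
    { carrier := {z | H.pr 0 z = 0 ∧ π (H.d (H.pr 1 z)) = 0}
      add_mem' := by
        rintro z z' ⟨e1, e2⟩ ⟨e3, e4⟩
        exact ⟨by rw [map_add, e1, e3, add_zero], by rw [map_add, map_add, map_add, e2, e4, add_zero]⟩
      zero_mem' := ⟨by simp, by simp⟩
      neg_mem' := by
        rintro z ⟨e1, e2⟩
        exact ⟨by rw [map_neg, e1, neg_zero], by rw [map_neg, map_neg, map_neg, e2, neg_zero]⟩ }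
  have hTP : ∀ (η : H.M →ₗ[A] H.M), TP H π η → ∀ w, ind η w ∈ T0.map (cl A).toAddMonoidHom := by
    intro η hη w
    obtain ⟨z, rfl⟩ := cl_surj w
    exact ⟨η z, hη z, rfl⟩
  let GR : ℕ → Submodule R (Wq A H.M) := fun i =>
    { carrier := {w | ∃ z, w = cl A (H.pr i z)}
      add_mem' := by
        rintro _ _ ⟨z, rfl⟩ ⟨z', rfl⟩
        exact ⟨z + z', by rw [map_add, map_add]⟩
      zero_mem' := ⟨0, by simp⟩
      smul_mem' := by
        rintro g _ ⟨z, rfl⟩
        exact ⟨H.ρ (L g) z, by rw [hsmL, H.ρ_pr]⟩ }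
  have hGR : ∀ i w, w ∈ GR i ↔ ∃ z, w = cl A (H.pr i z) := fun _ _ => Iff.rfl
  have hdeg : ∀ (η : H.M →ₗ[A] H.M), Deg1 H η → ∀ i, ∀ w ∈ GR i, ind η w ∈ GR (i + 1) := by
    rintro η hη i _ ⟨z, rfl⟩
    exact ⟨η z, by rw [ind_cl, hη]⟩
  let S : Sys1.{x, w} R t1 t2 J f1 f2 p :=
    { W := Wq A H.M
      grpW := inferInstance
      modW := modR
      gr := GR
      T := T0.map (cl A).toAddMonoidHom
      pr :=
        { toFun := fun w => ind (H.pr 0) w
          map_add' := fun _ _ => map_add _ _ _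
          map_smul' := by
            intro g w
            obtain ⟨z, rfl⟩ := cl_surj w
            rw [RingHom.id_apply, hsmL, ind_cl, ind_cl, hsmL, H.ρ_pr] }
      D := fun j =>
        { toFun := fun w => D (emb j) w
          map_add' := fun _ _ => map_add _ _ _
          map_smul' := fun g w => hDR _ g w }
      s := (ind s).toAddMonoidHom
      h := fun j => (ind (h j)).toAddMonoidHom
      D_gr := by
        rintro j i _ ⟨z, rfl⟩
        refine ⟨Y z (emb j), ?_⟩
        refine hD _ (fun l => H.pr i (Y z l)) ?_ (emb j)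
        rw [H.d_pr, hY z, map_sum]
        simp only [map_smul]
      D_zero := by
        rintro j _ ⟨z, rfl⟩
        have e1 := hD (H.pr 0 z) (fun _ => 0) (by simp [H.d_zero]) (emb j)
        rw [map_zero] at e1
        exact e1
      gr_top := by
        rintro i hi _ ⟨z, rfl⟩
        rw [H.pr_top i hi, map_zero]
      pr_mem := by
        intro w
        obtain ⟨z, rfl⟩ := cl_surj w
        exact ⟨z, rfl⟩
      pr_id := by
        rintro _ ⟨z, rfl⟩
        change ind (H.pr 0) (cl A (H.pr 0 z)) = _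
        rw [ind_cl, H.pr_pr]
      pr_T := by
        rintro _ ⟨z, hz, rfl⟩
        change cl A (H.pr 0 z) = 0
        rw [hz.1, map_zero]
      s_gr := hdeg s s1
      h_gr := fun j => hdeg (h j) (h1 j)
      s_T := hTP s s3
      h_T := fun j => hTP (h j) (h3 j)
      kap := by
        intro i y v _ _ hy1 hy2 j
        choose X hX using fun l => cl_surj (y l)
        obtain ⟨V, hV⟩ := cl_surj v
        have k1 : ∑ l, H.ρ (L (f1 l)) (X l) + H.ρ (L t2) V ∈ mM A H.M := by
          rw [← cl_eq_zero, map_add, map_sum]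
          rw [← hV, hsmL] at hy1
          simp only [← hX, hsmL] at hy1
          rw [hy1]
          abel
        have k2 : ∑ l, H.ρ (L (f2 l)) (X l) - H.ρ (L t1) V ∈ mM A H.M := by
          rw [← cl_eq_zero, map_sub, map_sum]
          rw [← hV, hsmL] at hy2
          simp only [← hX, hsmL] at hy2
          rw [hy2, sub_self]
        obtain ⟨U, hU⟩ := ex_coeff ha.1 k1
        obtain ⟨U', hU'⟩ := ex_coeff ha.1 k2
        refine ⟨-cl A (U (emb j)), -cl A (U' (emb j)), ?_⟩
        have key : H.d (∑ l, h l (X l) - s V) = ∑ k, a k • (∑ l with emb l = k, X l -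
            (H.ρ (L t1) (U k) + H.ρ (L t2) (U' k)) - ∑ l, ∑ i, C i k • H.ρ (r l i) (X l) -
            ∑ l, h l (Y (X l) k) + s (Y V k)) := by
          have q1 : ∀ l, H.d (h l (X l)) = a (emb l) • X l - H.ρ (L t1) (H.ρ (L (f1 l)) (X l)) -
              H.ρ (L t2) (H.ρ (L (f2 l)) (X l)) - ∑ i, b i • H.ρ (r l i) (X l) -
              h l (H.d (X l)) := by
            intro l
            rw [h2 l (X l)]
            abel
          have q2 : H.d (s V) = H.ρ (L t1) (H.ρ (L t2) V) - H.ρ (L t2) (H.ρ (L t1) V) -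
              s (H.d V) := by
            rw [s2 V]
            abel
          have q3 : H.ρ (L t1) (∑ l, H.ρ (L (f1 l)) (X l) + H.ρ (L t2) V) =
              ∑ k, a k • H.ρ (L t1) (U k) := by
            rw [hU, map_sum]
            simp only [map_smul]
          have q4 : H.ρ (L t2) (∑ l, H.ρ (L (f2 l)) (X l) - H.ρ (L t1) V) =
              ∑ k, a k • H.ρ (L t2) (U' k) := by
            rw [hU', map_sum]
            simp only [map_smul]
          have q5 : ∑ l, ∑ i, b i • H.ρ (r l i) (X l) =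
              ∑ k, a k • ∑ l, ∑ i, C i k • H.ρ (r l i) (X l) := by
            have : ∀ l, ∑ i, b i • H.ρ (r l i) (X l) =
                ∑ k, a k • ∑ i, C i k • H.ρ (r l i) (X l) := fun l =>
              b_coeff a b C hC1 _
            simp only [this]
            rw [Finset.sum_comm]
            simp only [Finset.smul_sum]
          have q6 : ∑ l, h l (H.d (X l)) = ∑ k, a k • ∑ l, h l (Y (X l) k) := by
            have : ∀ l, h l (H.d (X l)) = ∑ k, a k • h l (Y (X l) k) := by
              intro l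
              conv_lhs => rw [hY (X l), map_sum]
              simp only [map_smul]
            simp only [this]
            rw [Finset.sum_comm]
            simp only [Finset.smul_sum]
          have q7 : s (H.d V) = ∑ k, a k • s (Y V k) := by
            conv_lhs => rw [hY V, map_sum]
            simp only [map_smul]
          rw [map_sub, map_sum]
          simp only [q1, q2, Finset.sum_sub_distrib, smul_sub, smul_add, Finset.sum_add_distrib]
          rw [← q5, ← q6, ← q7, ← q3, ← q4, ← sum_fiber]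
          rw [map_add, map_sub, map_sum, map_sum]
          abel
        have e1 := hD _ _ key (emb j)
        rw [fiber_emb hemb] at e1
        have e2 : cl A (∑ l, ∑ i, C i (emb j) • H.ρ (r l i) (X l)) = 0 := by
          rw [map_sum]
          exact Finset.sum_eq_zero fun l _ => b_coeff_mem C (fun i => hC2 i j) _
        change D (emb j) (∑ l, ind (h l) (y l) - ind s v) = y j -
          (∑ l, ind (h l) (D (emb j) (y l)) - ind s (D (emb j) v)) + _
        simp only [← hX, ← hV, hDY, ind_cl]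
        rw [← map_sum, ← map_sub, e1]
        rw [map_add, map_sub, map_sub, map_sub, e2, map_add, smul_neg, smul_neg, hsmL, hsmL, map_sum]
        abel
      kop := by
        intro c hc
        have e1 : ∑ l, L (c l) * algebraMap A B (a (emb l)) ∈ blk B b := by
          rw [← Ideal.Quotient.eq_zero_iff_mem, map_sum]
          have e2 := congrArg q hc
          rw [map_sum, map_zero] at e2
          rw [← e2]
          refine Finset.sum_congr rfl fun l _ => ?_
          rw [map_mul, map_mul, ← hf, hL (c l)]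
        obtain ⟨ρ', hρ'⟩ := (Ideal.mem_span_range_iff_exists_fun).mp e1
        obtain ⟨η, η1, η2, η3⟩ := k_htp hH hπ (fun l => a (emb l)) (fun l => L (c l)) b ρ' hρ'.symm
        refine ⟨(ind η).toAddMonoidHom, hdeg η η1, hTP η η3, ?_⟩
        intro j w
        obtain ⟨z, rfl⟩ := cl_surj w
        have key : H.d (η z) = ∑ k, a k • (∑ l with emb l = k, H.ρ (L (c l)) z -
            ∑ i, C i k • H.ρ (ρ' i) z - η (Y z k)) := by
          have q1 : H.d (η z) = ∑ l, a (emb l) • H.ρ (L (c l)) z - ∑ i, b i • H.ρ (ρ' i) z -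
              η (H.d z) := by
            rw [η2 z]
            abel
          have q7 : η (H.d z) = ∑ k, a k • η (Y z k) := by
            conv_lhs => rw [hY z, map_sum]
            simp only [map_smul]
          rw [q1, q7, b_coeff a b C hC1, sum_fiber]
          simp only [smul_sub, Finset.sum_sub_distrib]
        have e3 := hD _ _ key (emb j)
        rw [fiber_emb hemb] at e3
        change D (emb j) (ind η (cl A z)) + ind η (D (emb j) (cl A z)) = c j • cl A z
        rw [ind_cl, e3, hDY, ind_cl, map_sub, map_sub, b_coeff_mem C (fun i => hC2 i j), hsmL]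
        abel }
  refine ⟨S, (cl A).toAddMonoidHom, ⟨?_, ?_, ?_, ?_, ?_⟩, ?_, ?_⟩
  · intro w
    exact cl_surj w
  · intro z
    exact cl_eq_zero
  · intro g c z hg
    exact hsm g c z hg
  · intro i w
    exact Iff.rfl
  · intro z y hy j
    exact hD z y hy (emb j)
  · intro z
    rfl
  · rintro _ ⟨z, hz, rfl⟩
    exact ⟨z, rfl, hz.1, hz.2⟩

end Pool.Agent.Helper33.FB
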